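import Pool.Agent.Helper25.GF.Goals

/-!
Project GF (MP_766b49_co): the goal ENB.
-/

set_option autoImplicit false
set_option maxHeartbeats 400000

namespace Pool.Agent.Helper48.GF

open Finset Pool.Agent.Helper25.GF

theorem kk_succ (I : Finset ℕ) (t : ℕ) : kk I (t + 1) = kk I t + if t ∈ I then 1 else 0 := by
  unfold kk
  have h1 : I.filter (· < t + 1) = I.filter (· < t) ∪ I.filter (· = t) := by
    ext x
    simp only [mem_filter, mem_union]
    constructor
    · rintro ⟨hx, h⟩
      rcases Nat.lt_succ_iff_lt_or_eq.mp h with h | h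
      · exact Or.inl ⟨hx, h⟩
      · exact Or.inr ⟨hx, h⟩
    · rintro (⟨hx, h⟩ | ⟨hx, h⟩)
      · exact ⟨hx, by omega⟩
      · exact ⟨hx, by omega⟩
  have h2 : Disjoint (I.filter (· < t)) (I.filter (· = t)) := by
    rw [Finset.disjoint_left]
    intro x hx hy
    rw [mem_filter] at hx hy
    omega
  rw [h1, card_union_of_disjoint h2]
  by_cases h : t ∈ I
  · have h3 : I.filter (· = t) = {t} := by
      ext x
      simp only [mem_filter, mem_singleton]
      constructor
      · rintro ⟨_, h⟩; exact h
      · rintro rfl; exact ⟨h, rfl⟩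
    rw [h3, if_pos h, card_singleton]
  · have h3 : I.filter (· = t) = ∅ := by
      ext x
      simp only [mem_filter, notMem_empty, iff_false]
      rintro ⟨hx, rfl⟩; exact h hx
    rw [h3, if_neg h, card_empty]

theorem kk_le (I : Finset ℕ) (t : ℕ) : kk I t ≤ t := by
  induction t with
  | zero => simp [kk]
  | succ t ih =>
    rw [kk_succ]
    split <;> omega

theorem En_zero (I : Finset ℕ) : En I 0 = 0 := by
  unfold En
  apply Finset.sum_eq_zero
  intro t ht
  rw [mem_filter] at ht
  omega

theorem En_succ_in (I : Finset ℕ) (T : ℕ) (h : T ∈ I) (h0 : 0 < T) :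
    En I (T + 1) = En I T + (kk I T : ℝ) / T := by
  unfold En
  have h1 : I.filter (fun t => 0 < t ∧ t < T + 1) =
      insert T (I.filter (fun t => 0 < t ∧ t < T)) := by
    ext x
    simp only [mem_filter, mem_insert]
    constructor
    · rintro ⟨hx, h1, h2⟩
      by_cases hxT : x = T
      · exact Or.inl hxT
      · exact Or.inr ⟨hx, h1, by omega⟩
    · rintro (rfl | ⟨hx, h1, h2⟩)
      · exact ⟨h, h0, by omega⟩
      · exact ⟨hx, h1, by omega⟩
  rw [h1, Finset.sum_insert (by simp), add_comm]

theorem En_succ_out (I : Finset ℕ) (T : ℕ) (h : T ∉ I ∨ T = 0) :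
    En I (T + 1) = En I T := by
  unfold En
  have h1 : I.filter (fun t => 0 < t ∧ t < T + 1) = I.filter (fun t => 0 < t ∧ t < T) := by
    ext x
    simp only [mem_filter]
    constructor
    · rintro ⟨hx, h1, h2⟩
      refine ⟨hx, h1, ?_⟩
      rcases h with h | h
      · rcases Nat.lt_succ_iff_lt_or_eq.mp h2 with h3 | h3
        · exact h3
        · exact absurd (h3 ▸ hx) h
      · omega
    · rintro ⟨hx, h1, h2⟩
      exact ⟨hx, h1, by omega⟩
  rw [h1]

theorem En_le (I : Finset ℕ) (T : ℕ) : En I T ≤ T := by
  induction T with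
  | zero => rw [En_zero]; simp
  | succ T ih =>
    by_cases h : T ∉ I ∨ T = 0
    · rw [En_succ_out I T h]
      push_cast
      linarith
    · push Not at h
      obtain ⟨h1, h2⟩ := h
      have hT : 0 < T := Nat.pos_of_ne_zero h2
      rw [En_succ_in I T h1 hT]
      have h3 : (kk I T : ℝ) / T ≤ 1 := by
        rw [div_le_one (by exact_mod_cast hT)]
        exact_mod_cast kk_le I T
      push_cast
      linarith

/-- ENB. -/
theorem enb : Pool.Agent.Helper25.GF.ENB := by
  intro I c η T₀ N h0 h1 hc hyp T
  have hc0 : 0 ≤ c := h0.trans hc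
  have hk : ∀ T : ℕ, 0 ≤ c * (kk I T : ℝ) := fun T => mul_nonneg hc0 (Nat.cast_nonneg _)
  have hT0 : (0 : ℝ) ≤ T₀ := Nat.cast_nonneg _
  induction T with
  | zero =>
    intro _
    rw [En_zero]
    have := hk 0
    linarith
  | succ T ih =>
    intro hTN
    have ih' := ih (by omega)
    by_cases hle : T + 1 ≤ T₀
    · have h2 := En_le I (T + 1)
      have h3 : ((T + 1 : ℕ) : ℝ) ≤ T₀ := by exact_mod_cast hle
      have := hk (T + 1)
      linarith
    · by_cases hη : η * ((T + 1 : ℕ) : ℝ) ≤ kk I (T + 1)
      · have h2 := hyp (T + 1) (by omega) hTN hη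
        linarith
      · rw [not_le] at hη
        by_cases h : T ∉ I ∨ T = 0
        · rw [En_succ_out I T h]
          have h3 : (kk I T : ℝ) ≤ kk I (T + 1) := by
            have : kk I T ≤ kk I (T + 1) := by
              rw [kk_succ]
              split <;> omega
            exact_mod_cast this
          have h4 : c * (kk I T : ℝ) ≤ c * kk I (T + 1) := mul_le_mul_of_nonneg_left h3 hc0
          linarith
        · push Not at h
          obtain ⟨h2, h3⟩ := h
          have hT : 0 < T := Nat.pos_of_ne_zero h3
          have hTR : (0 : ℝ) < T := by exact_mod_cast hT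
          rw [En_succ_in I T h2 hT]
          have h4 : (kk I (T + 1) : ℝ) = kk I T + 1 := by
            rw [kk_succ, if_pos h2]
            push_cast
            ring
          rw [h4] at hη ⊢
          push_cast at hη
          have h5 : (kk I T : ℝ) / T ≤ c := by
            rw [div_le_iff₀ hTR]
            have h6 : (kk I T : ℝ) ≤ η * T := by nlinarith
            have h7 : η * T ≤ c * T := mul_le_mul_of_nonneg_right hc hTR.le
            linarith
          nlinarith

end Pool.Agent.Helper48.GF
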